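import Mathlib

/-!
# Alternating sums of multilinear maps with pigeonhole
-/

set_option autoImplicit false

namespace Pool.Agent.L0h15.VZ

open Equiv

variable {A B Z : Type*} [AddCommGroup A] [Module ℚ A] [AddCommGroup Z] [Module ℚ Z]

/-- the alternating sum -/
def altSum {n : ℕ} (M : (Fin n → A) → Z) (a : Fin n → A) : Z :=
  ∑ σ : Perm (Fin n), (Perm.sign σ : ℤ) • M (a ∘ σ)

omit [AddCommGroup A] [Module ℚ A] in
/-- an alternating sum vanishes, if the alternating sums of the restrictions to some positions vanish -/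
theorem altSum_eq_zero {m n : ℕ} (M : (Fin n → A) → Z) (a : Fin n → A) (e : Fin m ↪ Fin n)
    (h : ∀ (f : Fin m ↪ Fin n) (b : Fin n → A),
      ∑ τ : Perm (Fin m), (Perm.sign τ : ℤ) • M (Function.extend f ((a ∘ e) ∘ τ) b) = 0) :
    altSum M a = 0 := by
  classical
  -- average over the permutations of the positions in the range of `e`
  have h1 : ∀ τ : Perm (Fin m), altSum M a =
      ∑ σ : Perm (Fin n), (Perm.sign (τ.viaFintypeEmbedding e * σ) : ℤ) •
        M (a ∘ (τ.viaFintypeEmbedding e * σ : Perm (Fin n))) := by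
    intro τ
    exact (Fintype.sum_equiv (Equiv.mulLeft (τ.viaFintypeEmbedding e)) _ _ (fun σ => rfl)).symm
  have h2 : ∑ _τ : Perm (Fin m), altSum M a = 0 := by
    rw [Finset.sum_congr rfl fun τ _ => h1 τ, Finset.sum_comm]
    refine Finset.sum_eq_zero fun σ _ => ?_
    let f : Fin m ↪ Fin n := e.trans (σ⁻¹ : Perm (Fin n)).toEmbedding
    have h3 : ∀ τ : Perm (Fin m), (a ∘ (τ.viaFintypeEmbedding e * σ : Perm (Fin n))) =
        Function.extend f ((a ∘ e) ∘ τ) (a ∘ σ) := by
      intro τ
      funext k
      by_cases hk : ∃ i, f i = k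
      · obtain ⟨i, rfl⟩ := hk
        rw [f.injective.extend_apply]
        have h4 : σ (f i) = e i := by simp [f]
        simp only [Function.comp_apply, Perm.mul_apply]
        rw [h4, Perm.viaFintypeEmbedding_apply_image]
      · rw [Function.extend_apply' _ _ _ hk]
        simp only [Function.comp_apply, Perm.mul_apply]
        rw [Perm.viaFintypeEmbedding_apply_notMem_range]
        rintro ⟨i, hi⟩
        exact hk ⟨i, by simp [f, hi]⟩
    have h5 : ∀ τ : Perm (Fin m), (Perm.sign (τ.viaFintypeEmbedding e * σ) : ℤ) =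
        (Perm.sign σ : ℤ) * (Perm.sign τ : ℤ) := by
      intro τ
      rw [Perm.sign_mul, Perm.viaFintypeEmbedding_sign]
      push_cast
      ring
    rw [Finset.sum_congr rfl fun τ _ => by rw [h5, h3, mul_smul]]
    rw [← Finset.smul_sum, h f (a ∘ σ), smul_zero]
  rw [Finset.sum_const, Finset.card_univ, Fintype.card_perm, Fintype.card_fin] at h2
  have h6 : ((m.factorial : ℕ) : ℚ) • altSum M a = 0 := by
    rw [Nat.cast_smul_eq_nsmul]
    exact h2
  rcases smul_eq_zero.1 h6 with h7 | h7
  · exact absurd h7 (Nat.cast_ne_zero.2 m.factorial_ne_zero)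
  · exact h7

theorem altSum_eq {n : ℕ} (M : MultilinearMap ℚ (fun _ : Fin n => A) Z) (a : Fin n → A) :
    altSum M a = MultilinearMap.alternatization M a := by
  rw [MultilinearMap.alternatization_apply]
  refine Finset.sum_congr rfl fun σ _ => ?_
  rw [MultilinearMap.domDomCongr_apply, Units.smul_def]
  rfl

/-- the alternating sum vanishes, if `A` is generated by the images of the maps `φ j`, and among `n`
elements there are always `p j + 1` in the image of one `φ j`, for which the partial alternating sums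
vanish -/
theorem altSum_of_sum {n r : ℕ} (M : MultilinearMap ℚ (fun _ : Fin n => A) Z)
    (A' : Fin r → Type*) (φ : ∀ j, A' j → A) (hgen : ∀ a, ∃ x : ∀ j, A' j, a = ∑ j, φ j (x j))
    (p : Fin r → ℕ) (hp : ∑ j, p j < n)
    (h : ∀ (j : Fin r) (f : Fin (p j + 1) ↪ Fin n) (b : Fin n → A) (x : Fin (p j + 1) → A' j),
      ∑ τ : Perm (Fin (p j + 1)), (Perm.sign τ : ℤ) •
        M (Function.extend f ((φ j ∘ x) ∘ τ) b) = 0) (a : Fin n → A) : altSum M a = 0 := by
  classical
  choose x hx using hgen
  have ha : a = fun k => ∑ j, φ j (x (a k) j) := funext fun k => hx (a k)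
  rw [altSum_eq, ha]
  change (MultilinearMap.alternatization M).toMultilinearMap _ = 0
  rw [MultilinearMap.map_sum]
  refine Finset.sum_eq_zero fun c _ => ?_
  change MultilinearMap.alternatization M _ = 0
  rw [← altSum_eq]
  -- pigeonhole
  obtain ⟨j, hj⟩ : ∃ j, p j + 1 ≤ (Finset.univ.filter fun k => c k = j).card := by
    by_contra hcon
    push Not at hcon
    have h1 : (Finset.univ : Finset (Fin n)).card =
        ∑ j, (Finset.univ.filter fun k => c k = j).card :=
      Finset.card_eq_sum_card_fiberwise (fun k _ => Finset.mem_univ (c k))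
    have h2 : ∑ j, (Finset.univ.filter fun k => c k = j).card ≤ ∑ j, p j :=
      Finset.sum_le_sum fun j _ => Nat.lt_succ_iff.1 (hcon j)
    rw [Finset.card_univ, Fintype.card_fin] at h1
    omega
  obtain ⟨t, ht, htc⟩ := Finset.exists_subset_card_eq hj
  let e : Fin (p j + 1) ↪ Fin n := (t.orderEmbOfFin htc).toEmbedding
  have he : ∀ i, c (e i) = j := fun i =>
    (Finset.mem_filter.1 (ht (Finset.orderEmbOfFin_mem t htc i))).2
  refine altSum_eq_zero M _ e fun f b => ?_
  have h3 : ((fun k => φ (c k) (x (a k) (c k))) ∘ e) = φ j ∘ fun i => x (a (e i)) j := by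
    funext i
    simp only [Function.comp_apply]
    rw [he i]
  rw [h3]
  exact h j f b _

end Pool.Agent.L0h15.VZ
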