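import Pool.Agent.L0h15.OL.Ax

/-!
# Exterior products of zero-cycles on surfaces
-/

set_option autoImplicit false

namespace Pool.Agent.L0h15.VZ

open Pool.Agent.L0h15.OL (Sp Lin ap)
open Equiv

/-- the zero-cycles on the powers of surfaces, with known properties -/
structure Theory where
  /-- the smooth projective complex surfaces -/
  Surf : Type
  /-- the geometric genus -/
  pg : Surf → ℕ
  /-- the group `A²_AJ(S)` of Albanese-trivial zero-cycles, with rational coefficients -/
  A : Surf → Sp
  /-- the group `A^{2n}(S^n)`, with rational coefficients -/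
  Z : Surf → ℕ → Sp
  /-- the exterior product `(a_1, ..., a_n) ↦ a_1 × ... × a_n` -/
  times : ∀ S n, MultilinearMap ℚ (fun _ : Fin n => A S) (Z S n)
  /-- the exterior product with factors `x i` at the positions `f i`, and fixed factors `b k` at the other
  positions, is a linear function of the exterior product of the `x i` -/
  insert : ∀ S m n (f : Fin m ↪ Fin n) (b : Fin n → A S), ∃ I : Lin (Z S m) (Z S n),
    ∀ x, times S n (Function.extend f x b) = ap I (times S m x)
  /-- the maps which are given by correspondences -/
  Corr : ∀ {S S'}, Lin (A S') (A S) → Prop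
  /-- the diagonal -/
  diag : ∀ S, Corr (OL.idL (A S))
  /-- the action of the exterior powers of a correspondence -/
  corr : ∀ {S S'} (φ : Lin (A S') (A S)), Corr φ → ∀ n, ∃ g : Lin (Z S' n) (Z S n),
    ∀ x, times S n (fun k => ap φ (x k)) = ap g (times S' n x)

namespace Theory

variable (T : Theory)

/-- the alternating sum of the exterior products of any `n` Albanese-trivial zero-cycles is zero -/
def Vanish (S : T.Surf) (n : ℕ) : Prop :=
  ∀ a : Fin n → T.A S, ∑ σ : Perm (Fin n), (Perm.sign σ : ℤ) • T.times S n (a ∘ σ) = 0

/-- Voisin's conjecture for the surface `S` -/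
def Conj (S : T.Surf) : Prop := ∀ n, T.pg S < n → T.Vanish S n

/-- the Albanese-trivial zero-cycles on `S` are sums of images, under correspondences, of
Albanese-trivial zero-cycles on the surfaces `S' j` -/
def Generated (S : T.Surf) {r : ℕ} (S' : Fin r → T.Surf) : Prop :=
  ∃ φ : ∀ j, Lin (T.A (S' j)) (T.A S), (∀ j, T.Corr (φ j)) ∧
    ∀ a, ∃ x : ∀ j, T.A (S' j), a = ∑ j, ap (φ j) (x j)

end Theory

end Pool.Agent.L0h15.VZ
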