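import Pool.Agent.L0h15.VZ.Defs
import Pool.Agent.L0h15.VZ.Alt

/-!
# Closure properties of Voisin's conjecture
-/

set_option autoImplicit false

namespace Pool.Agent.L0h15.VZ

open Pool.Agent.L0h15.OL (Sp Lin ap)
open Equiv

namespace Theory

variable {T : Theory}

theorem partial_zero {S S' : T.Surf} {m n : ℕ} (φ : Lin (T.A S') (T.A S)) (hφ : T.Corr φ)
    (h : T.Vanish S' m) (f : Fin m ↪ Fin n) (b : Fin n → T.A S) (x : Fin m → T.A S') :
    ∑ τ : Perm (Fin m), (Perm.sign τ : ℤ) •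
      T.times S n (Function.extend f ((ap φ ∘ x) ∘ τ) b) = 0 := by
  obtain ⟨I, hI⟩ := T.insert S m n f b
  obtain ⟨g, hg⟩ := T.corr φ hφ m
  have h1 : ∀ τ : Perm (Fin m), (Perm.sign τ : ℤ) •
      T.times S n (Function.extend f ((ap φ ∘ x) ∘ τ) b) =
      ap I (ap g ((Perm.sign τ : ℤ) • T.times S' m (x ∘ τ))) := by
    intro τ
    have h2 : T.times S n (Function.extend f ((ap φ ∘ x) ∘ τ) b) =
        ap I (ap g (T.times S' m (x ∘ τ))) := by
      rw [hI, ← hg]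
      rfl
    rw [h2]
    have h3 : ap g ((Perm.sign τ : ℤ) • T.times S' m (x ∘ τ)) =
        (Perm.sign τ : ℤ) • ap g (T.times S' m (x ∘ τ)) :=
      map_zsmul (show (T.Z S' m) →ₗ[ℚ] (T.Z S m) from g) _ _
    rw [h3]
    exact (map_zsmul (show (T.Z S m) →ₗ[ℚ] (T.Z S n) from I) _ _).symm
  rw [Finset.sum_congr rfl fun τ _ => h1 τ]
  have h4 := congrArg (fun z => ap I (ap g z)) (h x)
  have h5 : ap I (ap g (∑ σ : Perm (Fin m), (Perm.sign σ : ℤ) • T.times S' m (x ∘ σ))) =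
      ∑ σ : Perm (Fin m), ap I (ap g ((Perm.sign σ : ℤ) • T.times S' m (x ∘ σ))) :=
    map_sum ((show (T.Z S m) →ₗ[ℚ] (T.Z S n) from I) ∘ₗ
      (show (T.Z S' m) →ₗ[ℚ] (T.Z S m) from g)) _ _
  rw [← h5]
  refine h4.trans ?_
  exact map_zero ((show (T.Z S m) →ₗ[ℚ] (T.Z S n) from I) ∘ₗ
      (show (T.Z S' m) →ₗ[ℚ] (T.Z S m) from g))

theorem vanish_of_generated {S : T.Surf} {r n : ℕ} {S' : Fin r → T.Surf}
    (hS : T.Generated S S') (p : Fin r → ℕ) (hp : ∑ j, p j < n)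
    (h : ∀ j, T.Vanish (S' j) (p j + 1)) : T.Vanish S n := by
  obtain ⟨φ, hφ, hgen⟩ := hS
  intro a
  exact altSum_of_sum (T.times S n) (fun j => (T.A (S' j)).carrier) (fun j => ap (φ j)) hgen p hp
    (fun j f b x => partial_zero (φ j) (hφ j) (h j) f b x) a

theorem conj_of_generated {S : T.Surf} {r : ℕ} {S' : Fin r → T.Surf}
    (hS : T.Generated S S') (hp : ∑ j, T.pg (S' j) ≤ T.pg S) (h : ∀ j, T.Conj (S' j)) :
    T.Conj S := fun _ hn =>
  vanish_of_generated hS (fun j => T.pg (S' j)) (lt_of_le_of_lt hp hn)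
    (fun j => h j _ (Nat.lt_succ_self _))

theorem vanish_mono {S : T.Surf} {m n : ℕ} (h : T.Vanish S (m + 1)) (hmn : m < n) :
    T.Vanish S n := by
  refine vanish_of_generated (r := 1) (S' := fun _ => S)
    ⟨fun _ => Pool.Agent.L0h15.OL.idL (T.A S), fun _ => T.diag S, fun a => ⟨fun _ => a, ?_⟩⟩
    (fun _ => m) (by simpa using hmn) (fun _ => h)
  rw [Finset.sum_const, Finset.card_univ, Fintype.card_fin, one_smul]
  rfl

end Theory

end Pool.Agent.L0h15.VZ
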